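import Pool.Agent.Helper46.SP.CoreSpec

/-!
# A07c : equivariance of conditions and of the forcing relation
-/

open Cardinal Set
open scoped Pointwise

namespace Pool.Agent.Helper34.SP

open Pool.Agent.Helper46.SP

variable {Q : Par} {S : CodeSys Q}

/-- `𝒞` is closed under the group. -/
def GCl (𝒞 : Set (RC S)) : Prop := ∀ (g : Grp Q) (c : RC S), c ∈ 𝒞 → g • c ∈ 𝒞

theorem p0_le_iff (g : Grp Q) (p q : P0 Q) : g • p ≤ q ↔ p ≤ g⁻¹ • q := by
  constructor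
  · intro h
    have := P0.smul_le g⁻¹ _ _ h
    rwa [inv_smul_smul] at this
  · intro h
    have := P0.smul_le g _ _ h
    rwa [smul_inv_smul] at this

theorem p0_le_iff' (g : Grp Q) (p q : P0 Q) : p ≤ g • q ↔ g⁻¹ • p ≤ q := by
  rw [p0_le_iff, inv_inv]

theorem feq_smul (g : Grp Q) (x y : RN Q) (p : P0 Q) (h : x.Feq y p) :
    (g • x).Feq (g • y) (g • p) := by
  intro q hq n
  rw [RN.smul_val, RN.smul_val, Set.mem_smul_set_iff_inv_smul_mem,
    Set.mem_smul_set_iff_inv_smul_mem]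
  exact h (g⁻¹ • q) ((p0_le_iff' g q p).1 hq) n

theorem tlev_smul (g : Grp Q) (t : Trip S) : tlev (g • t) = tlev t := rfl

theorem cut_smul (ζ : Stg Q) (g : Grp Q) (c : RC S) : cut (g • c) ζ = g • cut c ζ := by
  ext t
  rw [Set.mem_smul_set_iff_inv_smul_mem]
  constructor
  · rintro ⟨h1, h2⟩
    refine ⟨(Set.mem_smul_set_iff_inv_smul_mem).1 h1, ?_⟩
    rw [tlev_smul]
    exact h2
  · rintro ⟨h1, h2⟩
    refine ⟨(Set.mem_smul_set_iff_inv_smul_mem).2 h1, ?_⟩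
    rw [tlev_smul] at h2
    exact h2

theorem fm_smul {𝒞 : Set (RC S)} (h𝒞 : GCl 𝒞) (g : Grp Q) (x : RN Q)
    (T : Set (RN Q × P0 Q × RC S)) (p : P0 Q) (c : RC S) (h : FM 𝒞 x T p c) :
    FM 𝒞 (g • x) (g • T) (g • p) (g • c) := by
  intro p' hp' c' hc' hcc'
  obtain ⟨p'', hp'', c'', hc'', hcc'', t, ht, h1, h2, h3⟩ := h (g⁻¹ • p') ((p0_le_iff' g p' p).1 hp')
    (g⁻¹ • c') (h𝒞 g⁻¹ c' hc') ((Set.smul_set_subset_iff_subset_inv_smul_set).1 hcc')
  refine ⟨g • p'', (p0_le_iff g p'' p').2 hp'', g • c'', h𝒞 g c'' hc'', ?_, g • t,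
    Set.smul_mem_smul_set ht, P0.smul_le g _ _ h1, Set.smul_set_mono h2, feq_smul g _ _ _ h3⟩
  have := Set.smul_set_mono (a := g) hcc''
  rwa [smul_inv_smul] at this

theorem fm_smul_iff {𝒞 : Set (RC S)} (h𝒞 : GCl 𝒞) (g : Grp Q) (x : RN Q)
    (T : Set (RN Q × P0 Q × RC S)) (p : P0 Q) (c : RC S) :
    FM 𝒞 x (g • T) p c ↔ FM 𝒞 (g⁻¹ • x) T (g⁻¹ • p) (g⁻¹ • c) := by
  constructor
  · intro h
    have := fm_smul h𝒞 g⁻¹ _ _ _ _ h
    rwa [inv_smul_smul] at this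
  · intro h
    have := fm_smul h𝒞 g _ _ _ _ h
    rwa [smul_inv_smul, smul_inv_smul, smul_inv_smul] at this

theorem fe_smul {𝒞 : Set (RC S)} (h𝒞 : GCl 𝒞) (g : Grp Q)
    (T T' : Set (RN Q × P0 Q × RC S)) (p : P0 Q) (c : RC S) (h : FE 𝒞 T T' p c) :
    FE 𝒞 (g • T) (g • T') (g • p) (g • c) := by
  intro p' hp' c' hc' hcc' x
  rw [fm_smul_iff h𝒞, fm_smul_iff h𝒞]
  exact h (g⁻¹ • p') ((p0_le_iff' g p' p).1 hp') (g⁻¹ • c') (h𝒞 g⁻¹ c' hc')
    ((Set.smul_set_subset_iff_subset_inv_smul_set).1 hcc') (g⁻¹ • x)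

theorem fe_smul_iff {𝒞 : Set (RC S)} (h𝒞 : GCl 𝒞) (g : Grp Q)
    (T T' : Set (RN Q × P0 Q × RC S)) (p : P0 Q) (c : RC S) :
    FE 𝒞 (g • T) (g • T') p c ↔ FE 𝒞 T T' (g⁻¹ • p) (g⁻¹ • c) := by
  constructor
  · intro h
    have := fe_smul h𝒞 g⁻¹ _ _ _ _ h
    rwa [inv_smul_smul, inv_smul_smul] at this
  · intro h
    have := fe_smul h𝒞 g _ _ _ _ h
    rwa [smul_inv_smul, smul_inv_smul] at this

theorem fixes_conj (g h : Grp Q) (z : Set (Idx Q)) (hh : Fixes h (g • z)) :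
    Fixes (g⁻¹ * h * g) z := by
  intro i hi
  have := hh (g • i) (Set.smul_mem_smul_set hi)
  rw [mul_smul, mul_smul, this, inv_smul_smul]

theorem conj_fix {α : Type*} [MulAction (Grp Q) α] (g h : Grp Q) (A : α)
    (hA : (g⁻¹ * h * g) • A = A) : h • g • A = g • A := by
  have := congrArg (fun z => g • z) hA
  simp only [mul_smul, smul_inv_smul] at this
  exact this

theorem sn_smul {𝒞 : Set (RC S)} (h𝒞 : GCl 𝒞) (ξ : Q.Lev) (g : Grp Q) (A : S.U)
    (hA : IsSN 𝒞 ξ A) : IsSN 𝒞 ξ (g • A) where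
  lev := by rw [S.lev_smul, hA.lev]
  small := by
    intro t ht
    rw [S.G_smul, Set.mem_smul_set] at ht
    obtain ⟨s, hs, rfl⟩ := ht
    obtain ⟨h1, h2⟩ := hA.small s hs
    refine ⟨h𝒞 g _ h1, ?_⟩
    have : #(g • s.2.2 : Set (Trip S)) = #(s.2.2) := Cardinal.mk_smul_set g s.2.2
    exact (this ▸ h2 : #(g • s.2.2 : Set (Trip S)) ≤ Q.κ ξ)
  canon := by
    intro x q f hf hfc h
    rw [S.G_smul] at h ⊢
    rw [fm_smul_iff h𝒞] at h
    rw [Set.mem_smul_set_iff_inv_smul_mem]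
    refine hA.canon (g⁻¹ • x) (g⁻¹ • q) (g⁻¹ • f) (h𝒞 _ _ hf) ?_ h
    have : #(g⁻¹ • f : Set (Trip S)) = #f := Cardinal.mk_smul_set g⁻¹ f
    rw [this]
    exact hfc
  inv := by
    obtain ⟨z, hz, hinv⟩ := hA.inv
    refine ⟨g • z, ?_, ?_⟩
    · have : #(g • z : Set (Idx Q)) = #z := Cardinal.mk_smul_set g z
      rw [this]
      exact hz
    · intro h hh
      exact conj_fix g h A (hinv _ (fixes_conj g h z hh))

theorem ok_smul {𝒞 : Set (RC S)} (h𝒞 : GCl 𝒞) (η : Q.Lev) (g : Grp Q) (c : RC S)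
    (hc : OK 𝒞 η c) : OK 𝒞 η (g • c) where
  name := by
    intro t ht hlev
    obtain ⟨s, hs, rfl⟩ := Set.mem_smul_set.1 ht
    exact sn_smul h𝒞 η g s.1 (hc.name s hs hlev)
  mem := by
    intro t ht hlev p d hd hcd x hx
    obtain ⟨s, hs, rfl⟩ := Set.mem_smul_set.1 ht
    have e : S.G (g • s).1 = g • S.G s.1 := S.G_smul g s.1
    rw [e, fm_smul_iff h𝒞] at hx ⊢
    have h2 : cut c η ⊆ g⁻¹ • d := by
      rw [cut_smul] at hcd
      exact (Set.smul_set_subset_iff_subset_inv_smul_set).1 hcd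
    have h3 := hc.mem s hs hlev (g⁻¹ • p) (g⁻¹ • d) (h𝒞 _ _ hd) h2 (g⁻¹ • x) hx
    have e2 : g⁻¹ • (g • s).2.2 = s.2.2 := inv_smul_smul g s.2.2
    rw [e2]
    exact h3
  fn := by
    intro t ht t' ht' hlev hl p d hd hcd hfe
    obtain ⟨s, hs, rfl⟩ := Set.mem_smul_set.1 ht
    obtain ⟨s', hs', rfl⟩ := Set.mem_smul_set.1 ht'
    have e : S.G (g • s).1 = g • S.G s.1 := S.G_smul g s.1
    have e' : S.G (g • s').1 = g • S.G s'.1 := S.G_smul g s'.1
    rw [e, e', fe_smul_iff h𝒞] at hfe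
    have h2 : cut c η ⊆ g⁻¹ • d := by
      rw [cut_smul] at hcd
      exact (Set.smul_set_subset_iff_subset_inv_smul_set).1 hcd
    have hl' : s.2.1 = s'.2.1 := by
      have : g • s.2.1 = g • s'.2.1 := hl
      exact (smul_left_cancel_iff g).1 this
    have h3 := hc.fn s hs s' hs' hlev hl' (g⁻¹ • p) (g⁻¹ • d) (h𝒞 _ _ hd) h2 hfe
    have h4 := feq_smul g _ _ _ h3
    rw [smul_inv_smul] at h4
    exact h4

theorem gcl_CC (ζ : Stg Q) : GCl (CC ζ : Set (RC S)) := by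
  induction ζ using WellFoundedLT.induction with
  | ind ζ ih =>
    intro g c hc
    rw [mem_CC] at hc ⊢
    obtain ⟨h1, h2, h3⟩ := hc
    refine ⟨?_, ?_, ?_⟩
    · have : #(g • c : Set (Trip S)) = #c := Cardinal.mk_smul_set g c
      rw [this]
      exact h1
    · intro t ht
      obtain ⟨s, hs, rfl⟩ := Set.mem_smul_set.1 ht
      exact h2 s hs
    · intro η hη
      exact ok_smul (ih η hη) η g c (h3 η hη)

theorem below_mono {ζ ζ' : Stg Q} (h : ζ ≤ ζ') : below ζ ⊆ (below ζ' : Set (Idx Q)) :=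
  fun _ hi ξ hξ => lt_of_lt_of_le (hi ξ hξ) h

theorem none_of_fixes {g : Grp Q} {ζ : Stg Q} (h : Fixes g (below ζ)) : g none = 1 := by
  ext i
  have : g • ((none, i) : Idx Q) = (none, i) := h _ (fun ξ hξ => by simp at hξ)
  exact congrArg Prod.snd this

theorem p0_fix {g : Grp Q} (h : g none = 1) (p : P0 Q) : g • p = p := by
  apply P0.ext
  funext x
  rw [P0.smul_val, h]
  simp

theorem rn_fix {g : Grp Q} (h : g none = 1) (x : RN Q) : g • x = x := by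
  apply RN.ext
  funext n
  rw [RN.smul_val]
  ext p
  rw [Set.mem_smul_set_iff_inv_smul_mem]
  have : g⁻¹ none = 1 := by
    rw [Pi.inv_apply, h, inv_one]
  rw [p0_fix this]

theorem set_fix {α : Type*} [MulAction (Grp Q) α] {g : Grp Q} {T : Set α}
    (h : ∀ t ∈ T, g • t = t) : g • T = T := by
  ext t
  constructor
  · intro ht
    obtain ⟨s, hs, rfl⟩ := Set.mem_smul_set.1 ht
    rw [h s hs]
    exact hs
  · intro ht
    rw [← h t ht]
    exact Set.smul_mem_smul_set ht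

theorem ccFix_of (ζ : Stg Q) (g : Grp Q) (c : RC S) (hc : c ∈ CC ζ) (hg : Fixes g (below ζ))
    (ih : ∀ η : Q.Lev, (η : Stg Q) < ζ → ∀ A : S.U, SN η A → g • A = A) : g • c = c := by
  rw [mem_CC] at hc
  obtain ⟨-, h2, h3⟩ := hc
  apply set_fix
  intro t ht
  have hlt := h2 t ht
  have h0 := none_of_fixes hg
  refine Prod.ext ?_ (Prod.ext ?_ ?_)
  · exact ih (tlev t) hlt t.1 ((h3 (tlev t) hlt).name t ht rfl)
  · have : g • lab t.2.1 = lab t.2.1 := hg _ (fun ξ hξ => by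
      have : some t.2.1.1 = some ξ := hξ
      rw [← Option.some.inj this]
      exact hlt)
    have h5 : (g (some t.2.1.1)) t.2.1.2 = t.2.1.2 := congrArg Prod.snd this
    exact Prod.ext rfl h5
  · exact rn_fix h0 t.2.2

theorem snFix (ξ : Q.Lev) : ∀ (g : Grp Q) (A : S.U), SN ξ A → Fixes g (below (ξ : Stg Q)) →
    g • A = A := by
  induction ξ using WellFoundedLT.induction with
  | ind ξ ih =>
    intro g A hA hg
    have h0 := none_of_fixes hg
    apply S.ext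
    · rw [S.lev_smul]
    rw [S.G_smul]
    apply set_fix
    intro t ht
    refine Prod.ext (rn_fix h0 t.1) (Prod.ext (p0_fix h0 t.2.1) ?_)
    refine ccFix_of (ξ : Stg Q) g t.2.2 (hA.small t ht).1 hg ?_
    intro η hη B hB
    have hη' : η < ξ := WithTop.coe_lt_coe.1 hη
    refine ih η hη' g B hB ?_
    intro i hi
    exact hg i (below_mono hη.le hi)

theorem st_A07c : ST_gfacts := by
  intro Q S
  refine ⟨?_, ?_, ?_, ?_, ?_, ?_, ?_⟩
  · exact fun ζ => gcl_CC ζ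
  · exact fun ζ g c => cut_smul ζ g c
  · exact fun ζ g x T p c h => fm_smul (gcl_CC ζ) g x T p c h
  · exact fun ζ g T T' p c h => fe_smul (gcl_CC ζ) g T T' p c h
  · exact fun ξ g A hA => sn_smul (gcl_CC _) ξ g A hA
  · exact fun ξ g A hA hg => snFix ξ g A hA hg
  · intro ζ g c hc hg
    refine ccFix_of ζ g c hc hg ?_
    intro η hη A hA
    refine snFix η g A hA ?_
    intro i hi
    exact hg i (below_mono hη.le hi)

end Pool.Agent.Helper34.SP
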